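import Pool.Agent.Run7.h98.CR.Laws

/-!
# Conjecture C from a piece of one degree of the powers, coefficients in `K`

Let `H` be a Weil cohomology with coefficient field `K` (any base field), `b(Y)` the sum of the Betti
numbers of `Y`, `β(Y)` the largest Betti number, and `d(Y)` the largest rank of an idempotent `e`
which is a `K`-linear combination of cycles of codimension `dim Y` on `Y × Y` and which acts in one
degree only: there is `m` such that `e` is zero on `H^j(Y)` for `j ≠ m`. The conjecture `C(X)` says
that all Kunneth components of the diagonal of `X` are `K`-linear combinations of classes of cycles.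
Let `X` have a zero-cycle of degree different from zero.

* If `C(X)` is false, then `d(X^n) ≤ b(X)^(n + 1) / (2 (n + 1))` for all `n ≥ 1`. Note that `β(X^n)`
  is at least `9 b(X)^n / (16 (4 √n dim X + 1))`.
* So `C(X)` is true if and only if `d(X^n) ≥ ε β(X^n)` for infinitely many `n`, for some `ε > 0`.
* `C(X)` is true for all `X` if and only if there is a function `f > 0` with `f(y) √(log y) → ∞` such
  that `d(Y) ≥ f(b(Y)) β(Y)` for all `Y` (if all varieties have such a zero-cycle).

Proof. Let `A_n` be the algebra of the combinations of correspondences on `X^n` and `deg` the degree
operator. If no idempotent `z ≠ 0` of `A_1` is orthogonal to `A_1` for the supertrace form, there is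
`C` in `A_1` such that `str(x deg) = str(x C)` for all `x` in `A_1`. Put `δ = deg - C`,
`δ_n = Σ δ_(i)` on `X^n`. For an idempotent `e` of `A_n` which acts in the degree `m` only,
`str(δ_n e a) = 0` for all `a` in `A_n`, because the contractions of algebraic correspondences are
algebraic. So the rank of `e` is at most the multiplicity of the eigenvalue `t m` of `δ_n + t deg` for
every `t` in `K`. If `δ` is nilpotent, the projectors to the `H^i(X)` are polynomials in `C`.
Otherwise `δ` has an eigenvector in some `H^j(X)` with an eigenvalue `l ≠ 0`, and it vanishes on
`H^0(X)` and on the class of a point. For almost all `t` the three eigenvalues `0`, `2 t dim X` and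
`l + t j` of `δ + t deg` are so independent that the number of words of length `n` with a given sum is
at most `b(X)^(n + 1) / (2 (n + 1))`. If there is such an idempotent `z`, the rank of `e` is at most
`(b(X) - 2)^n`.
-/

open CategoryTheory AlgebraicGeometry

set_option autoImplicit false

universe u v

namespace Pool.Agent.Results.MP_a60482_ag.OneDegreeShare

open Pool.Agent.H914 VarClass Obj WeilCohomology Pool.Agent.N103.OC Pool.Agent.Run7.H98.CR

/-- **Conjecture C from a piece of one degree of the powers.** -/
theorem result {k : Type u} [Field k] {𝒱 : VarClass k} {ops : CycleOps 𝒱}
    (W : WeilCohomology.{u, v} ops) : DegreeLaws W (oneDegreeDimK W) (AllSpan W) :=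
  span_degree W

end Pool.Agent.Results.MP_a60482_ag.OneDegreeShare
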