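import Pool.Agent.Run7.h98.CX.Laws

/-!
# The Kunneth standard conjecture: a positive share suffices

Let `H` be a Weil cohomology with coefficient field `K` (any base field), `b(Y)` the sum of the Betti
numbers of `Y`, and `c(Y)` the largest rank of a direct summand `(Y, e)` of the motive of `Y` (modulo
homological equivalence, coefficients `K`) for which the Kunneth standard conjecture is true: `e` is
an idempotent `K`-linear combination of cycles of codimension `dim Y` on `Y × Y`, and so are all its
Kunneth components.

* If the Kunneth standard conjecture `C(X)` is false, then `c(X^n) ≤ b(X)^n √(b(X) / (2 (n + 1)))` for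
  all `n ≥ 1`.
* So `C(X)` is true if and only if `c(X^n) ≥ ε b(X^n)` for infinitely many `n`, for some `ε > 0`.
* The Kunneth standard conjecture is true for all `X` if and only if there is a function `f > 0` with
  `f(y) √(log y) → ∞` such that `c(Y) ≥ f(b(Y)) b(Y)` for all `Y`.

The sign conjecture is not assumed.

Proof. Let `A_n` be the algebra of the combinations of correspondences on `X^n` and `deg` the degree
operator, which is additive and commutes with `A_n`.

Case 1: no idempotent `z ≠ 0` of `A_1` is orthogonal to `A_1` for the supertrace form. Then the
elements of the radical of this form are nilpotent, and `x ↦ str(x deg)` vanishes on them. Hence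
`str(x deg) = str(x C)` for an element `C` of `A_1`. The contractions of elements of `A_n` are
algebraic, so `str(x δ_n) = 0` for all `x` in `A_n`, where `δ_n = Σ δ_(i)`, `δ = deg - C`. If `e` is an
idempotent with algebraic Kunneth components, this gives `tr(δ_n e a) = 0` for all `a`, and then the
rank of `e` is at most the multiplicity of the eigenvalue zero of `δ_n`. If `δ` has only the
eigenvalue zero, then the projectors to the `H^i(X)` are polynomials in `C`. Otherwise the
multiplicity is estimated by a Littlewood-Offord bound for the sums of `n` eigenvalues of `δ`.

Case 2: there is such an idempotent `z`. Then `tr((1 - (1 - z) ⊗ ... ⊗ (1 - z)) e a) = 0` for all `a`,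
and the rank of `e` is at most `(b(X) - 1)^n`.
-/

open CategoryTheory AlgebraicGeometry

set_option autoImplicit false

universe u v

namespace Pool.Agent.Results.MP_a60482_ag.PositiveShareOfPureSummands

open Pool.Agent.H914 VarClass Obj WeilCohomology Pool.Agent.Run7.H98.CX

/-- **A positive share suffices for the Kunneth standard conjecture.** -/
theorem result {k : Type u} [Field k] {𝒱 : VarClass k} {ops : CycleOps 𝒱}
    (W : WeilCohomology.{u, v} ops) : BoundLaw W ∧ ShareLaw W ∧ AllLaw W :=
  ⟨boundLaw W, shareLaw W, allLaw W⟩

end Pool.Agent.Results.MP_a60482_ag.PositiveShareOfPureSummands
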