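import Pool.Agent.Run7.h43.SD.RelMain

/-!
# Künneth components which factor through other varieties

Let `W` be a Weil cohomology theory over a field of any characteristic (no Lefschetz theorem is
assumed), and let `𝒳` and `𝒳'` be two classes of smooth projective varieties such that the Künneth
components of the diagonals of the varieties in `𝒳` are algebraic and such that numerically trivial
cycles on `X × X'` are homologically trivial for `X` in `𝒳` and `X'` in `𝒳'`. Let `Y` be ANY smooth
projective variety, of dimension `d`. We prove for all `j ≤ 2 d`: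

the `j`-th Künneth component of the diagonal of `Y` is a combination of compositions
`Y → X' → X → Y` of correspondences with `X'` in `𝒳'` and `X` in `𝒳` if and only if `H^j(Y)` is
generated by `𝒳` and `H^(2d-j)(Y)` is generated by `𝒳'` (by the images of correspondences).

So all Künneth components of `Y` are algebraic if this holds for all `j > d`; nothing is assumed
about the middle cohomology.

Cases. (1) `𝒳' = {Y}`: then the condition on `H^(2d-j)(Y)` is empty. Take `𝒳 = {X}` for a smooth
hyperplane section `X` of `Y`. By the weak Lefschetz theorem `H^j(Y)` is the image of `H^(j-2)(X)`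
for `j > d`. Therefore `C(X)` and `hom = num` on `X × Y` imply `C(Y)`; and so `C(Y)` follows from
`hom = num` on the products `X_(i+1) × X_i` of the successive hyperplane sections of `Y`. (The
classical argument uses `hom = num` on `Y × Y`, and the hard Lefschetz theorem.) (2) `𝒳 = 𝒳'` the
class of curves, where the two hypotheses are known in all characteristics, or of abelian varieties
in characteristic zero.

The proof: on the space of the compositions `Y → X' → (X, π^i) → Y` which act on `H^j(Y)` the form
`(b, b') ↦ Tr(b b')` has finite rank and rational values. If `b` is in its radical, then the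
correspondences `β' b α` from `X` to `X'` are numerically trivial, so zero; therefore `b` acts as
zero on the part of `H^j(Y)` generated by `𝒳`, so `b ∘ b` acts as zero, and the trace of `b` is zero.
So there is an element `e` with `Tr(e b) = Tr(b)` for all `b`, and by the same argument `e` acts as
the identity on the part generated by `𝒳`. The cycle `e` has rational coefficients.
-/

open Pool.Agent.H914 hiding IsProjector
open Pool.Agent.H914.VarClass.Obj Pool.Agent.R903 Run7.h43.SD

universe u v w

namespace Pool.Agent.Results.MP_a60482_ag.RelativeKunneth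

/-- **Künneth components through two classes of varieties.** -/
theorem result {k : Type u} [Field k] {𝒱 : VarClass k} {C : ChowTheory.{u, v} 𝒱}
    (W : WeilTheory.{u, v, w} C) (𝒳 𝒳' : Set 𝒱.Obj)
    (hC : ∀ X ∈ 𝒳, ∀ i ≤ 2 * X.dim, KunnethAt W X i)
    (hD : ∀ X ∈ 𝒳, ∀ X' ∈ 𝒳', HomNum W X X') (Y : 𝒱.Obj) :
    (∀ j ≤ 2 * Y.dim, KunnethThrough W 𝒳 𝒳' Y j ↔ GeneratedAt W 𝒳 𝒳' Y j) ∧
    ((∀ j, Y.dim < j → j ≤ 2 * Y.dim → GeneratedAt W 𝒳 𝒳' Y j) → ∀ j, KunnethAt W Y j) := by
  have hX : IsBase W 𝒳' 𝒳 := ⟨hC, fun X' hX' X hX γ => hD X hX X' hX' γ⟩
  refine ⟨fun j hj => projector_iff hX hj, fun h j => all_of_above (fun l hl hl' => ?_) j⟩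
  obtain ⟨e, he, he'⟩ := exists_projector hX hl' (h l hl hl').1 (h l hl hl').2
  exact ⟨e, through_le _ (by omega) (tj_le _ (by omega) he), he'⟩

end Pool.Agent.Results.MP_a60482_ag.RelativeKunneth
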